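import Pool.Agent.Lib.MP_e46711_an.H2.Test

/-!
# Module C7: the window
-/

open Set Filter Topology MeasureTheory

namespace Pool.Agent.Lib.MP_e46711_an.H2

section

variable (P : Par)

/-- The denominator of the quotient. -/
noncomputable def De (t : ℝ) : ℝ := P.M + P.m * t ^ (P.p + 1)

theorem De_ge {t : ℝ} (ht : 1 ≤ t) : 1 ≤ De P t := by
  have h1 : 1 ≤ t ^ (P.p + 1) := Real.one_le_rpow ht (by linarith [P.hp0])
  have h2 := P.hMm
  have h3 := P.hm
  simp only [De]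
  nlinarith

theorem psi_cont : ContinuousOn P.psi (Icc P.t1 P.t2) := by
  have hq : 0 < P.p + 1 := by linarith [P.hp0]
  have h1 : Continuous fun t : ℝ => De P t := by
    unfold De
    exact continuous_const.add (continuous_const.mul (continuous_id.rpow_const fun _ =>
      Or.inr hq.le))
  have h2 : ContinuousOn (fun t : ℝ => (De P t) ^ (2 / (P.p + 1))) (Icc P.t1 P.t2) := by
    refine h1.continuousOn.rpow_const fun t ht => Or.inl ?_
    exact (zero_lt_one.trans_le (De_ge P (P.ht1.le.trans ht.1))).ne'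
  refine ContinuousOn.div (by fun_prop) h2 fun t ht => ?_
  exact (Real.rpow_pos_of_pos (zero_lt_one.trans_le (De_ge P (P.ht1.le.trans ht.1))) _).ne'

/-- The strict maximum is a well. -/
theorem psi_well (hN : P.Net) (η : ℝ) (hη : 0 < η) : ∃ ω > 0, ∀ t ∈ Icc P.t1 P.t2,
    P.psi P.t0 - ω < P.psi t → |t - P.t0| < η := by
  obtain ⟨-, hmax⟩ := hN.N2a
  have hK : IsCompact (Icc P.t1 P.t2 ∩ {t | η ≤ |t - P.t0|}) :=
    isCompact_Icc.inter_right (isClosed_le continuous_const (by fun_prop))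
  rcases (Icc P.t1 P.t2 ∩ {t | η ≤ |t - P.t0|}).eq_empty_or_nonempty with he | hne
  · refine ⟨1, one_pos, fun t ht _ => ?_⟩
    by_contra hc
    exact (he ▸ (⟨ht, not_lt.1 hc⟩ : t ∈ Icc P.t1 P.t2 ∩ {t | η ≤ |t - P.t0|}) : t ∈ (∅ : Set ℝ))
  · obtain ⟨s, hs, hsm⟩ := hK.exists_isMaxOn hne ((psi_cont P).mono inter_subset_left)
    have hst : s ≠ P.t0 := by
      rintro rfl
      have h2 : η ≤ |P.t0 - P.t0| := hs.2
      simp only [sub_self, abs_zero] at h2
      linarith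
    refine ⟨P.psi P.t0 - P.psi s, by linarith [hmax s hs.1 hst], fun t ht htt => ?_⟩
    by_contra hc
    have h1 : P.psi t ≤ P.psi s := hsm ⟨ht, not_lt.1 hc⟩
    linarith

/-- The quotient of the test function tends to `psi t0`. -/
theorem test_lim (C : ℝ) : Tendsto (fun e : ℝ => (1 - e) ^ (2 / (P.p + 1)) *
    (P.L0 * (P.M + P.m * P.t0 ^ 2) - (1 + e) * (1 + P.c * e ^ 2) * (P.t0 - 1) ^ 2) /
      (P.M + P.m * P.t0 ^ (P.p + 1) + C * e) ^ (2 / (P.p + 1))) (𝓝[>] 0) (𝓝 (P.psi P.t0)) := by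
  have hD : 0 < De P P.t0 := zero_lt_one.trans_le (De_ge P (P.ht1.trans P.ht10).le)
  have h1 : Tendsto (fun e : ℝ => (1 - e) ^ (2 / (P.p + 1))) (𝓝 0) (𝓝 (1 ^ (2 / (P.p + 1)))) := by
    have h2 : Tendsto (fun e : ℝ => 1 - e) (𝓝 0) (𝓝 1) := by
      have : Tendsto (fun e : ℝ => 1 - e) (𝓝 0) (𝓝 (1 - 0)) := by
        exact (continuous_const.sub continuous_id).tendsto 0
      simpa using this
    exact h2.rpow_const (Or.inl one_ne_zero)
  have h3 : Tendsto (fun e : ℝ => P.L0 * (P.M + P.m * P.t0 ^ 2) -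
      (1 + e) * (1 + P.c * e ^ 2) * (P.t0 - 1) ^ 2) (𝓝 0)
      (𝓝 (P.L0 * (P.M + P.m * P.t0 ^ 2) - (P.t0 - 1) ^ 2)) := by
    have : Tendsto (fun e : ℝ => P.L0 * (P.M + P.m * P.t0 ^ 2) -
      (1 + e) * (1 + P.c * e ^ 2) * (P.t0 - 1) ^ 2) (𝓝 0)
      (𝓝 (P.L0 * (P.M + P.m * P.t0 ^ 2) -
      (1 + 0) * (1 + P.c * 0 ^ 2) * (P.t0 - 1) ^ 2)) := by
      refine Continuous.tendsto ?_ 0
      fun_prop
    convert this using 2
    ring
  have h4 : Tendsto (fun e : ℝ => (P.M + P.m * P.t0 ^ (P.p + 1) + C * e) ^ (2 / (P.p + 1))) (𝓝 0)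
      (𝓝 ((De P P.t0) ^ (2 / (P.p + 1)))) := by
    have h5 : Tendsto (fun e : ℝ => P.M + P.m * P.t0 ^ (P.p + 1) + C * e) (𝓝 0) (𝓝 (De P P.t0)) := by
      have : Tendsto (fun e : ℝ => P.M + P.m * P.t0 ^ (P.p + 1) + C * e) (𝓝 0)
          (𝓝 (P.M + P.m * P.t0 ^ (P.p + 1) + C * 0)) := by
        refine Continuous.tendsto ?_ 0
        fun_prop
      simpa [De] using this
    exact h5.rpow_const (Or.inl hD.ne')
  have h6 := (h1.mul h3).div h4 (Real.rpow_pos_of_pos hD _).ne'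
  have h7 : 1 ^ (2 / (P.p + 1)) * (P.L0 * (P.M + P.m * P.t0 ^ 2) - (P.t0 - 1) ^ 2) /
      De P P.t0 ^ (2 / (P.p + 1)) = P.psi P.t0 := by
    rw [Real.one_rpow, one_mul, Par.psi, De, sub_sq_comm]
  rw [← h7]
  exact h6.mono_left nhdsWithin_le_nhds

/-- The scaling: `a² / e` in terms of `a^(p+1)`. -/
theorem sq_eq {a : ℝ} (ha : 0 ≤ a) : a ^ 2 = (a ^ (P.p + 1)) ^ (2 / (P.p + 1)) := by
  have hq : P.p + 1 ≠ 0 := by linarith [P.hp0]
  rw [← Real.rpow_mul ha, mul_div_cancel₀ _ hq]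
  norm_cast

/-- The upper bound on the window cone. -/
theorem upper {ν ε θ t a : ℝ} (hν : 0 ≤ ν) (hν1 : ν ≤ 1) (h0 : 0 < ε) (hθ : 0 ≤ θ) (hθ1 : θ ≤ 1)
    (ht : t ∈ Icc P.t1 P.t2) (ha : 0 < a) (hmx : P.psi t ≤ P.psi P.t0)
    (hZ : P.M / ε * |a| ^ (P.p + 1) + P.m / ε * |t * a| ^ (P.p + 1) ≤ 1 + θ)
    (hQ : 0 < P.Qf ν ε a (t * a)) :
    P.Qf ν ε a (t * a) ≤ ε ^ (2 / (P.p + 1) - 1) * (P.psi t + ν * (P.M + P.m * P.t2 ^ 2 + P.t2 ^ 2) +
      3 * θ * (P.psi P.t0 + (P.M + P.m * P.t2 ^ 2 + P.t2 ^ 2))) ∧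
    P.Qf ν ε a (t * a) ≤ a ^ 2 / ε * ((P.L0 + 1) * (P.M + P.m * P.t2 ^ 2)) := by
  have hp0 := P.hp0
  have hM := P.hM
  have hm := P.hm
  have hL0 := P.hL0
  have hq : 0 < P.p + 1 := by linarith
  have ht1 : 1 ≤ t := P.ht1.le.trans ht.1
  have ht0 : 0 < t := by linarith
  have htt : t ^ 2 ≤ P.t2 ^ 2 := pow_le_pow_left₀ ht0.le ht.2 2
  have hD := De_ge P ht1
  have hD0 : 0 < De P t := by linarith
  set r : ℝ := 2 / (P.p + 1) with hr
  have hr0 : 0 ≤ r := by positivity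
  have hr2 : r ≤ 2 := by rw [hr, div_le_iff₀ hq]; linarith
  set B : ℝ := (P.L0 + ν) * (P.M + P.m * t ^ 2) - (1 - ν) * (1 - t) ^ 2 with hB
  set C1 : ℝ := P.M + P.m * P.t2 ^ 2 + P.t2 ^ 2 with hC1
  have hQB : P.Qf ν ε a (t * a) = a ^ 2 / ε * B := by
    simp only [Par.Qf, hB]
    ring
  have ha2 : 0 < a ^ 2 / ε := by positivity
  have hBpos : 0 < B := by
    rw [hQB] at hQ
    exact (mul_pos_iff_of_pos_left ha2).1 hQ
  constructor
  · rw [hQB]
    have e1 : (a ^ (P.p + 1)) * De P t ≤ ε * (1 + θ) := by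
      have e2 : |t * a| ^ (P.p + 1) = t ^ (P.p + 1) * a ^ (P.p + 1) := by
        rw [abs_of_pos (by positivity), Real.mul_rpow ht0.le ha.le]
      rw [abs_of_pos ha, e2] at hZ
      have e3 := mul_le_mul_of_nonneg_left hZ h0.le
      have e4 : ε * (P.M / ε * a ^ (P.p + 1) + P.m / ε * (t ^ (P.p + 1) * a ^ (P.p + 1))) =
          (a ^ (P.p + 1)) * De P t := by
        simp only [De]
        field_simp
      rwa [e4] at e3
    have e5 : a ^ 2 * (De P t) ^ r ≤ ε ^ r * (1 + θ) ^ r := by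
      rw [sq_eq P ha.le, ← Real.mul_rpow (by positivity) hD0.le,
        ← Real.mul_rpow h0.le (by linarith)]
      exact Real.rpow_le_rpow (by positivity) e1 hr0
    have e6 : (1 + θ) ^ r ≤ 1 + 3 * θ := by
      have : (1 + θ) ^ r ≤ (1 + θ) ^ (2:ℝ) := Real.rpow_le_rpow_of_exponent_le (by linarith) hr2
      have e7 : (1 + θ) ^ (2:ℝ) = (1 + θ) ^ 2 := by norm_cast
      rw [e7] at this
      nlinarith
    have hDr : 1 ≤ (De P t) ^ r := Real.one_le_rpow hD hr0
    have hDr0 : 0 < (De P t) ^ r := by linarith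
    -- `B / D^r ≤ psi t + ν C1`
    have e8 : B / (De P t) ^ r ≤ P.psi t + ν * C1 := by
      have e9 : P.psi t = (P.L0 * (P.M + P.m * t ^ 2) - (1 - t) ^ 2) / (De P t) ^ r := rfl
      rw [e9, div_le_iff₀ hDr0, add_mul, div_mul_cancel₀ _ hDr0.ne']
      have e10 : 0 ≤ ν * C1 := by positivity
      have e11 : ν * C1 ≤ ν * C1 * (De P t) ^ r := le_mul_of_one_le_right e10 hDr
      have e12 : (1 - t) ^ 2 ≤ P.t2 ^ 2 := by nlinarith
      have e13 : B ≤ P.L0 * (P.M + P.m * t ^ 2) - (1 - t) ^ 2 + ν * C1 := by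
        have e14 : ν * (P.M + P.m * t ^ 2 + (1 - t) ^ 2) ≤ ν * C1 := by
          refine mul_le_mul_of_nonneg_left ?_ hν
          rw [hC1]
          nlinarith
        rw [hB]
        linarith
      linarith
    have e15 : 0 < B / (De P t) ^ r := div_pos hBpos hDr0
    have hEe : 0 < ε ^ (r - 1) := Real.rpow_pos_of_pos h0 _
    have e16 : a ^ 2 / ε * B ≤ ε ^ (r - 1) * ((1 + 3 * θ) * (B / (De P t) ^ r)) := by
      have e17 : ε ^ (r - 1) = ε ^ r / ε := by
        rw [Real.rpow_sub h0, Real.rpow_one]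
      have e18 : a ^ 2 ≤ ε ^ r * (1 + 3 * θ) / (De P t) ^ r := by
        rw [le_div_iff₀ hDr0]
        refine e5.trans (mul_le_mul_of_nonneg_left e6 (by positivity))
      have e19 : a ^ 2 / ε * B ≤ ε ^ r * (1 + 3 * θ) / (De P t) ^ r / ε * B := by gcongr
      refine e19.trans (le_of_eq ?_)
      rw [e17]
      field_simp
    refine e16.trans (mul_le_mul_of_nonneg_left ?_ hEe.le)
    have e20 : B / (De P t) ^ r ≤ P.psi P.t0 + C1 := by
      have : ν * C1 ≤ C1 := mul_le_of_le_one_left (by positivity) hν1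
      linarith
    have e21 : θ * (B / (De P t) ^ r) ≤ θ * (P.psi P.t0 + C1) := mul_le_mul_of_nonneg_left e20 hθ
    have e22 : (1 + 3 * θ) * (B / (De P t) ^ r) =
        B / (De P t) ^ r + 3 * (θ * (B / (De P t) ^ r)) := by ring
    have e23 : 3 * θ * (P.psi P.t0 + C1) = 3 * (θ * (P.psi P.t0 + C1)) := by ring
    rw [e22, e23]
    linarith
  · rw [hQB]
    refine mul_le_mul_of_nonneg_left ?_ ha2.le
    rw [hB]
    have e1 : (P.L0 + ν) * (P.M + P.m * t ^ 2) ≤ (P.L0 + 1) * (P.M + P.m * P.t2 ^ 2) := by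
      gcongr
    have e2 : 0 ≤ (1 - ν) * (1 - t) ^ 2 := mul_nonneg (by linarith) (sq_nonneg _)
    linarith

/-- C7. -/
theorem t1a : T1aStatement := by
  intro P hN
  obtain ⟨hpsi0, hmax⟩ := hN.N2a
  have hp0 := P.hp0
  have hp1 := P.hp1
  have hM := P.hM
  have hm := P.hm
  have hL0 := P.hL0
  have ht1 := P.ht1
  have ht10 := P.ht10
  have ht02 := P.ht02
  have hq : 0 < P.p + 1 := by linarith
  set r : ℝ := 2 / (P.p + 1) with hr
  set η : ℝ := min (P.t0 - P.t1) (P.t2 - P.t0) / 2 with hη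
  have hη0 : 0 < η := by
    rw [hη]
    exact half_pos (lt_min (by linarith) (by linarith))
  have hη1 : η ≤ (P.t0 - P.t1) / 2 := by
    rw [hη]; linarith [min_le_left (P.t0 - P.t1) (P.t2 - P.t0)]
  have hη2 : η ≤ (P.t2 - P.t0) / 2 := by
    rw [hη]; linarith [min_le_right (P.t0 - P.t1) (P.t2 - P.t0)]
  obtain ⟨ω, hω, hwell⟩ := psi_well P hN η hη0
  set ω' : ℝ := min ω (P.psi P.t0) / 8 with hω'
  have hω'0 : 0 < ω' := by
    rw [hω']; have := lt_min hω hpsi0; linarith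
  have hω'1 : 8 * ω' ≤ ω := by
    rw [hω']; linarith [min_le_left ω (P.psi P.t0)]
  have hω'2 : 8 * ω' ≤ P.psi P.t0 := by
    rw [hω']; linarith [min_le_right ω (P.psi P.t0)]
  set C1 : ℝ := P.M + P.m * P.t2 ^ 2 + P.t2 ^ 2 with hC1
  have hC10 : 0 < C1 := by positivity
  set ν : ℝ := min (1 / 2) (ω' / C1) with hν
  have hν0 : 0 < ν := lt_min (by norm_num) (by positivity)
  have hν1 : ν < 1 := (min_le_left _ _).trans_lt (by norm_num)
  have hνC : ν * C1 ≤ ω' := by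
    have := min_le_right (1 / 2) (ω' / C1)
    rwa [le_div_iff₀ hC10] at this
  set C2 : ℝ := P.psi P.t0 + C1 with hC2
  have hC20 : 0 < C2 := by positivity
  set C3 : ℝ := (P.L0 + 1) * (P.M + P.m * P.t2 ^ 2) with hC3
  have hC30 : 0 < C3 := by positivity
  have hs0 : 0 < P.psi P.t0 - 2 * ω' := by linarith
  have hK0 : 0 < (2 * P.L0 / (P.psi P.t0 - 2 * ω')) ^ ((P.p + 1) / (1 - P.p)) := by positivity
  refine ⟨ν, ⟨hν0, hν1⟩, _, hK0, ?_⟩
  have hev := (test_lim P (P.t0 ^ (P.p + 1) * (7 + P.c + P.τ + P.a))).eventually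
    (lt_mem_nhds (show P.psi P.t0 - 2 * ω' < P.psi P.t0 by linarith))
  have hev1 : ∀ᶠ e : ℝ in 𝓝[>] 0, e < 1 := by
    exact (eventually_lt_nhds (show (0:ℝ) < 1 by norm_num)).filter_mono nhdsWithin_le_nhds
  filter_upwards [hev, hev1, self_mem_nhdsWithin] with ε hF h1 h0 h hring
  replace h0 : 0 < ε := h0
  have hE : 0 < ε ^ (r - 1) := Real.rpow_pos_of_pos h0 _
  set E : ℝ := ε ^ (r - 1) with hEdef
  set A0 : ℝ := √(ε * (E * ω') / C3) with hA0
  have hA00 : 0 < A0 := Real.sqrt_pos.2 (by positivity)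
  set θ : ℝ := min (min 1 (E * ω')) (min (ω' / (3 * C2)) (min A0 (η * A0))) with hθ
  have hθ0 : 0 < θ := lt_min (lt_min one_pos (by positivity))
    (lt_min (by positivity) (lt_min hA00 (by positivity)))
  have hθ1 : θ ≤ 1 := (min_le_left _ _).trans (min_le_left _ _)
  have hθ2 : θ ≤ E * ω' := (min_le_left _ _).trans (min_le_right _ _)
  have hθ3 : 3 * θ * C2 ≤ ω' := by
    have : θ ≤ ω' / (3 * C2) := (min_le_right _ _).trans (min_le_left _ _)
    rw [le_div_iff₀ (by positivity)] at this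
    linarith
  have hθ4 : θ ≤ A0 := ((min_le_right _ _).trans (min_le_right _ _)).trans (min_le_left _ _)
  have hθ5 : θ ≤ η * A0 := ((min_le_right _ _).trans (min_le_right _ _)).trans (min_le_right _ _)
  refine ⟨E * (P.psi P.t0 - 2 * ω'), by positivity, θ, hθ0, ?_, ?_, ?_⟩
  · -- the constant `K`
    have e1 : 2 * P.L0 / (E * (P.psi P.t0 - 2 * ω')) = 2 * P.L0 / (P.psi P.t0 - 2 * ω') / E := by
      field_simp
    have e2 : E ^ ((P.p + 1) / (1 - P.p)) = ε := by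
      rw [hEdef, ← Real.rpow_mul h0.le]
      have : (r - 1) * ((P.p + 1) / (1 - P.p)) = 1 := by
        have h3 : 1 - P.p ≠ 0 := by linarith
        rw [hr]
        field_simp
        ring
      rw [this, Real.rpow_one]
    rw [e1, Real.div_rpow (by positivity) hE.le, e2]
  · -- the test function
    set D0 : ℝ := P.M + P.m * P.t0 ^ (P.p + 1) + P.t0 ^ (P.p + 1) * (7 + P.c + P.τ + P.a) * ε
      with hD0
    have ha : 0 < P.a := ((P.hL0.trans P.hL01).trans P.hL12).trans P.ha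
    have hcc := P.hc
    have hτ := P.hτ
    have ht00 : 0 < P.t0 := by linarith
    have hD00 : 0 < D0 := by positivity
    have hx : 0 < (1 - ε) * ε / D0 := div_pos (mul_pos (by linarith) h0) hD00
    set v : ℝ := ((1 - ε) * ε / D0) ^ (1 / (P.p + 1)) with hv
    have hv0 : 0 < v := Real.rpow_pos_of_pos hx _
    have hvq : v ^ (P.p + 1) = (1 - ε) * ε / D0 := by
      rw [hv, ← Real.rpow_mul hx.le, one_div_mul_cancel hq.ne', Real.rpow_one]
    obtain ⟨u, hu1, hu2, hu3, hu4, hu5, hu6⟩ := exists_test P h0 h1.le hring v hv0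
    refine ⟨u, hu1, hu2, ?_, ?_, ?_, ?_, ?_⟩
    · refine hu3.trans_lt ?_
      rw [← hD0, hvq]
      have : (1 - ε) * ε / D0 / ε * D0 = 1 - ε := by field_simp
      rw [this]
      linarith
    · rw [hu4]; exact hv0
    · rw [hu4, hu5, mul_comm]
      exact mul_lt_mul_of_pos_left ht10 hv0
    · rw [hu4, hu5, mul_comm P.t2]
      exact mul_lt_mul_of_pos_left ht02 hv0
    · refine lt_of_lt_of_le ?_ hu6
      have e1 : v ^ 2 = (1 - ε) ^ r * ε ^ r / D0 ^ r := by
        rw [sq_eq P hv0.le, hvq, Real.div_rpow (mul_pos (by linarith) h0).le hD00.le,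
          Real.mul_rpow (by linarith) h0.le]
      have e2 : E = ε ^ r / ε := by
        rw [hEdef, Real.rpow_sub h0, Real.rpow_one]
      have e3 := mul_lt_mul_of_pos_left hF hE
      refine e3.trans_le (le_of_eq ?_)
      have hDr : D0 ^ r ≠ 0 := (Real.rpow_pos_of_pos hD00 _).ne'
      rw [e1, e2, ← hr]
      field_simp
  · -- the window
    intro a b ha hab hba hZ hQ
    have hEω : 0 < E * ω' := mul_pos hE hω'0
    have hEψ : E * (8 * ω') ≤ E * P.psi P.t0 := mul_le_mul_of_nonneg_left hω'2 hE.le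
    have hσθ : E * ω' < E * (P.psi P.t0 - 2 * ω') - θ := by linarith
    replace hσθ : 0 < E * (P.psi P.t0 - 2 * ω') - θ := hEω.trans hσθ
    have hQ0 := hσθ.trans_le hQ
    have ha0 : 0 < a := by
      rcases ha.eq_or_lt with h2 | h2
      · exfalso
        subst h2
        have hb : b = 0 := le_antisymm (by simpa using hba) (by simpa using hab)
        subst hb
        simp [Par.Qf] at hQ0
      · exact h2
    set t : ℝ := b / a with ht
    have hb : b = t * a := by rw [ht]; field_simp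
    have htI : t ∈ Icc P.t1 P.t2 := by
      rw [ht]
      exact ⟨(le_div_iff₀ ha0).2 hab, (div_le_iff₀ ha0).2 hba⟩
    rw [hb] at hZ hQ hQ0 ⊢
    have hmx : P.psi t ≤ P.psi P.t0 := by
      by_cases h2 : t = P.t0
      · rw [h2]
      · exact (hmax t htI h2).le
    obtain ⟨u1, u2⟩ := upper P hν0.le hν1.le h0 hθ0.le hθ1 htI ha0 hmx hZ hQ0
    rw [← hr, ← hC1, ← hC2, ← hEdef] at u1
    rw [← hC3] at u2
    have h3 : P.psi P.t0 - ω < P.psi t := by
      have e1 : E * (P.psi P.t0 - 2 * ω') - E * ω' ≤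
          E * (P.psi t + ν * C1 + 3 * θ * C2) := by linarith
      have e2 : P.psi P.t0 - 3 * ω' ≤ P.psi t + ν * C1 + 3 * θ * C2 := by
        refine le_of_mul_le_mul_left ?_ hE
        linarith
      linarith
    have h4 := hwell t htI h3
    rw [abs_lt] at h4
    have h5 : A0 ≤ a := by
      rw [hA0]
      refine Real.sqrt_le_iff.2 ⟨ha0.le, ?_⟩
      rw [div_le_iff₀ hC30]
      have e1 : E * ω' ≤ a ^ 2 / ε * C3 := by linarith
      have e2 := mul_le_mul_of_nonneg_left e1 h0.le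
      have e3 : ε * (a ^ 2 / ε * C3) = a ^ 2 * C3 := by field_simp
      linarith
    refine ⟨hθ4.trans h5, ?_, ?_⟩
    · have e1 : η * a ≤ (t - P.t1) * a := mul_le_mul_of_nonneg_right (by linarith) ha0.le
      have e2 : η * A0 ≤ η * a := mul_le_mul_of_nonneg_left h5 hη0.le
      linarith
    · have e1 : η * a ≤ (P.t2 - t) * a := mul_le_mul_of_nonneg_right (by linarith) ha0.le
      have e2 : η * A0 ≤ η * a := mul_le_mul_of_nonneg_left h5 hη0.le
      linarith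

end

end Pool.Agent.Lib.MP_e46711_an.H2
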