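import Pool.Agent.Lib.MP_e46711_an.DefsC

/-!
# Module C7, part 1: a transition profile of energy close to one
-/

open Set Filter Topology MeasureTheory

namespace Pool.Agent.Lib.MP_e46711_an.H2

/-- A continuous bump with integral one and maximum close to one. -/
theorem exists_g (e : ℝ) (he : 0 < e) (he1 : e ≤ 1) : ∃ g : ℝ → ℝ, Continuous g ∧ (∀ x, 0 ≤ g x) ∧
    (∀ x, g x ≤ 1 + e) ∧ (∀ x ≤ 0, g x = 0) ∧ (∀ x, 1 ≤ x → g x = 0) ∧
    ∫ x in (0:ℝ)..1, g x = 1 := by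
  set δ : ℝ := e / 4 with hδ
  have hδ0 : 0 < δ := by positivity
  set G : ℝ → ℝ := fun x => max 0 (min 1 (min (x / δ) ((1 - x) / δ))) with hG
  have hGc : Continuous G := by fun_prop
  have hG0 : ∀ x, 0 ≤ G x := fun x => le_max_left _ _
  have hG1 : ∀ x, G x ≤ 1 := fun x => max_le zero_le_one (min_le_left _ _)
  have hGi : ∀ s t, IntervalIntegrable G volume s t := fun s t => hGc.intervalIntegrable s t
  have hG2 : ∀ x ∈ Icc δ (1 - δ), G x = 1 := by
    intro x hx
    have h1 : 1 ≤ x / δ := by rw [le_div_iff₀ hδ0]; linarith [hx.1]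
    have h2 : 1 ≤ (1 - x) / δ := by rw [le_div_iff₀ hδ0]; linarith [hx.2]
    simp only [hG]
    rw [min_eq_left (le_min h1 h2)]
    simp
  have hG3 : ∀ x ≤ 0, G x = 0 := by
    intro x hx
    have h1 : x / δ ≤ 0 := div_nonpos_of_nonpos_of_nonneg hx hδ0.le
    simp only [hG]
    refine max_eq_left ?_
    exact (min_le_right _ _).trans ((min_le_left _ _).trans h1)
  have hG4 : ∀ x, 1 ≤ x → G x = 0 := by
    intro x hx
    have h1 : (1 - x) / δ ≤ 0 := div_nonpos_of_nonpos_of_nonneg (by linarith) hδ0.le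
    simp only [hG]
    refine max_eq_left ?_
    exact (min_le_right _ _).trans ((min_le_right _ _).trans h1)
  set I : ℝ := ∫ x in (0:ℝ)..1, G x with hI
  have hI1 : 1 - 2 * δ ≤ I := by
    have h1 : I = (∫ x in (0:ℝ)..δ, G x) + (∫ x in δ..(1 - δ), G x) + ∫ x in (1 - δ)..1, G x := by
      rw [intervalIntegral.integral_add_adjacent_intervals (hGi _ _) (hGi _ _),
        intervalIntegral.integral_add_adjacent_intervals (hGi _ _) (hGi _ _)]
    have h2 : 0 ≤ ∫ x in (0:ℝ)..δ, G x :=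
      intervalIntegral.integral_nonneg hδ0.le fun x _ => hG0 x
    have h3 : 0 ≤ ∫ x in (1 - δ)..1, G x :=
      intervalIntegral.integral_nonneg (by linarith) fun x _ => hG0 x
    have h4 : ∫ x in δ..(1 - δ), G x = 1 - 2 * δ := by
      rw [intervalIntegral.integral_congr (g := fun _ => (1:ℝ))]
      · simp; ring
      · intro x hx
        rw [uIcc_of_le (by linarith)] at hx
        exact hG2 x hx
    linarith
  have hI0 : 0 < I := by linarith
  refine ⟨fun x => G x / I, hGc.div_const _, fun x => div_nonneg (hG0 x) hI0.le, fun x => ?_,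
    fun x hx => by simp only [hG3 x hx, zero_div], fun x hx => by simp only [hG4 x hx, zero_div],
    ?_⟩
  · rw [div_le_iff₀ hI0]
    have h5 : 1 ≤ (1 + e) * (1 - 2 * δ) := by rw [hδ]; nlinarith
    nlinarith [hG1 x]
  · rw [intervalIntegral.integral_div, ← hI, div_self hI0.ne']

/-- The primitive of the bump. -/
theorem exists_X (e : ℝ) (he : 0 < e) (he1 : e ≤ 1) : ∃ g X : ℝ → ℝ, Continuous g ∧
    (∀ x, 0 ≤ g x) ∧ (∀ x, g x ≤ 1 + e) ∧ (∀ x ≤ 0, g x = 0) ∧ (∀ x, 1 ≤ x → g x = 0) ∧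
    (∀ x, HasDerivAt X (g x) x) ∧ Monotone X ∧ (∀ x ≤ 0, X x = 0) ∧ (∀ x, 1 ≤ x → X x = 1) := by
  obtain ⟨g, hc, h0, h1, h2, h3, h4⟩ := exists_g e he he1
  have hd : ∀ x, HasDerivAt (fun y => ∫ r in (0:ℝ)..y, g r) (g x) x := fun x =>
    hc.deriv_integral g 0 x ▸ (hc.integral_hasStrictDerivAt 0 x).hasDerivAt
  refine ⟨g, fun y => ∫ r in (0:ℝ)..y, g r, hc, h0, h1, h2, h3, fun x => ?_, ?_, ?_, ?_⟩
  · exact (hc.integral_hasStrictDerivAt 0 x).hasDerivAt
  · exact monotone_of_deriv_nonneg (fun x => (hc.integral_hasStrictDerivAt 0 x).hasDerivAt.differentiableAt)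
      fun x => by rw [hc.deriv_integral g 0 x]; exact h0 x
  · intro x hx
    refine (intervalIntegral.integral_congr (g := fun _ => (0:ℝ)) ?_).trans (by simp)
    intro r hr
    rw [uIcc_of_ge hx] at hr
    exact h2 r hr.2
  · intro x hx
    have h5 : ∫ r in (1:ℝ)..x, g r = 0 := by
      refine (intervalIntegral.integral_congr (g := fun _ => (0:ℝ)) ?_).trans (by simp)
      intro r hr
      rw [uIcc_of_le hx] at hr
      exact h3 r hr.1
    have h6 := intervalIntegral.integral_add_adjacent_intervals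
      (hc.intervalIntegrable (μ := volume) 0 1) (hc.intervalIntegrable (μ := volume) 1 x)
    change ∫ r in (0:ℝ)..x, g r = 1
    rw [← h6, h5, h4, add_zero]

/-- Periodic continuation. -/
theorem exists_per (ℓ : ℝ) (hℓ : 0 < ℓ) (w : ℝ → ℝ) (hw : Continuous w) (h0 : w 0 = w ℓ) :
    ∃ d : ℝ → ℝ, Continuous d ∧ (∀ s, d (s + ℓ) = d s) ∧ ∀ s ∈ Icc 0 ℓ, d s = w s := by
  refine ⟨fun s => ((fun x => w (ℓ * x)) ∘ Int.fract) (s / ℓ), ?_, ?_, ?_⟩
  · have h1 : Continuous ((fun x => w (ℓ * x)) ∘ Int.fract) := by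
      refine ContinuousOn.comp_fract'' ?_ ?_
      · exact (hw.comp (continuous_const.mul continuous_id)).continuousOn
      · simpa using h0
    exact h1.comp (continuous_id.div_const _)
  · intro s
    have h1 : (s + ℓ) / ℓ = s / ℓ + 1 := by field_simp
    simp only [Function.comp]
    rw [h1, Int.fract_add_one]
  · intro s hs
    simp only [Function.comp]
    rcases eq_or_lt_of_le hs.2 with h1 | h1
    · subst h1
      rw [div_self hℓ.ne', Int.fract_one, mul_zero, h0]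
    · rw [Int.fract_eq_self.2 ⟨div_nonneg hs.1 hℓ.le, (div_lt_one hℓ).2 h1⟩,
        mul_div_cancel₀ _ hℓ.ne']

/-- A periodic `C¹` function from its restriction to a period. -/
theorem exists_perC1 (ℓ : ℝ) (hℓ : 0 < ℓ) (u0 w : ℝ → ℝ) (hw : Continuous w)
    (hd : ∀ s, HasDerivAt u0 (w s) s) (h0 : w 0 = w ℓ) (h1 : u0 0 = u0 ℓ) :
    ∃ u : ℝ → ℝ, ContDiff ℝ 1 u ∧ (∀ s, u (s + ℓ) = u s) ∧ (∀ s ∈ Icc 0 ℓ, u s = u0 s) ∧
      ∀ s ∈ Icc 0 ℓ, deriv u s = w s := by
  obtain ⟨d, hdc, hdp, hdw⟩ := exists_per ℓ hℓ w hw h0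
  have hI : ∀ s ∈ Icc 0 ℓ, ∫ r in (0:ℝ)..s, d r = u0 s - u0 0 := by
    intro s hs
    rw [← intervalIntegral.integral_eq_sub_of_hasDerivAt (fun x _ => hd x)
      (hw.intervalIntegrable 0 s)]
    refine intervalIntegral.integral_congr ?_
    intro r hr
    rw [uIcc_of_le hs.1] at hr
    exact hdw r ⟨hr.1, hr.2.trans hs.2⟩
  have hu : ∀ s, HasDerivAt (fun y => u0 0 + ∫ r in (0:ℝ)..y, d r) (d s) s := fun s =>
    ((hdc.integral_hasStrictDerivAt 0 s).hasDerivAt).const_add _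
  have hder : deriv (fun y => u0 0 + ∫ r in (0:ℝ)..y, d r) = d := funext fun s => (hu s).deriv
  refine ⟨fun y => u0 0 + ∫ r in (0:ℝ)..y, d r, ?_, ?_, ?_, ?_⟩
  · rw [contDiff_one_iff_deriv]
    exact ⟨fun s => (hu s).differentiableAt, by rw [hder]; exact hdc⟩
  · intro s
    have h2 := intervalIntegral.integral_add_adjacent_intervals
      (hdc.intervalIntegrable (μ := volume) 0 s) (hdc.intervalIntegrable (μ := volume) s (s + ℓ))
    have h3 : ∫ r in s..(s + ℓ), d r = ∫ r in (0:ℝ)..(0 + ℓ), d r :=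
      Function.Periodic.intervalIntegral_add_eq (f := d) hdp s 0
    have h4 := hI ℓ ⟨hℓ.le, le_rfl⟩
    rw [zero_add] at h3
    change u0 0 + ∫ r in (0:ℝ)..(s + ℓ), d r = u0 0 + ∫ r in (0:ℝ)..s, d r
    rw [← h2, h3, h4, h1]
    ring
  · intro s hs
    change u0 0 + ∫ r in (0:ℝ)..s, d r = u0 s
    rw [hI s hs]
    ring
  · intro s hs
    rw [hder]
    exact hdw s hs

end Pool.Agent.Lib.MP_e46711_an.H2
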