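import Pool.Agent.Lib.MP_e46711_an.H2.Prof

/-!
# Module C7, part 2: masses of the ring and the test function
-/

open Set Filter Topology MeasureTheory

namespace Pool.Agent.Lib.MP_e46711_an.H2

theorem split {f : ℝ → ℝ} (hf : Continuous f) (a b c : ℝ) :
    ∫ r in a..c, f r = (∫ r in a..b, f r) + ∫ r in b..c, f r :=
  (intervalIntegral.integral_add_adjacent_intervals (hf.intervalIntegrable _ _)
    (hf.intervalIntegrable _ _)).symm

theorem int_mono {f g : ℝ → ℝ} (hf : Continuous f) (hg : Continuous g) {s t : ℝ} (hst : s ≤ t)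
    (h : ∀ r ∈ Icc s t, f r ≤ g r) : ∫ r in s..t, f r ≤ ∫ r in s..t, g r :=
  intervalIntegral.integral_mono_on hst (hf.intervalIntegrable _ _) (hg.intervalIntegrable _ _) h

theorem int_le {f : ℝ → ℝ} (hf : Continuous f) {s t K : ℝ} (hst : s ≤ t)
    (h : ∀ r ∈ Icc s t, f r ≤ K) : ∫ r in s..t, f r ≤ K * (t - s) := by
  refine (int_mono hf continuous_const hst h).trans (le_of_eq ?_)
  simp
  ring

theorem int_eq {f : ℝ → ℝ} {s t K : ℝ} (hst : s ≤ t)
    (h : ∀ r ∈ Icc s t, f r = K) : ∫ r in s..t, f r = K * (t - s) := by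
  rw [intervalIntegral.integral_congr (g := fun _ => K)]
  · simp
    ring
  · intro r hr
    rw [uIcc_of_le hst] at hr
    exact h r hr

section

variable (P : Par) {ε : ℝ} {h : ℝ → ℝ}

/-- The masses of the pieces other than `H` and `L`. -/
theorem rest_le (h0 : 0 < ε) (h1 : ε ≤ 1) (hr : P.IsRing ε h) :
    (∫ s in P.s1 ε..P.s4 ε, h s) + (∫ s in P.s5 ε..P.s14 ε, h s) ≤ 7 + P.c + P.τ + P.a := by
  have hc := hr.smooth.continuous
  have hM := P.hM
  have hm := P.hm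
  have hcc := P.hc
  have hτ := P.hτ
  have ha : 0 < P.a := ((P.hL0.trans P.hL01).trans P.hL12).trans P.ha
  have e2 : ε ^ 2 ≤ 1 := pow_le_one₀ h0.le h1
  have e3 : ε ^ 3 ≤ 1 := pow_le_one₀ h0.le h1
  have e4 : ε ^ 4 ≤ 1 := pow_le_one₀ h0.le h1
  have p2 : 0 < ε ^ 2 := by positivity
  have p3 : 0 < ε ^ 3 := by positivity
  have a1 := int_le hc (s := P.s1 ε) (t := P.s2 ε) (by simp only [Par.s1, Par.s2]; linarith)
    fun r hr' => (hr.hJ1 r hr').2
  have a2 := int_le hc (s := P.s2 ε) (t := P.s3 ε) (by simp only [Par.s2, Par.s3]; linarith)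
    fun r hr' => (hr.hN1 r hr').le
  have a3 := int_le hc (s := P.s3 ε) (t := P.s4 ε) (by simp only [Par.s3, Par.s4]; linarith)
    fun r hr' => (hr.hJ2 r hr').2
  have a5 := int_le hc (s := P.s5 ε) (t := P.s6 ε) (by simp only [Par.s5, Par.s6]; linarith)
    fun r hr' => (hr.hJ3 r hr').2
  have a6 := int_le hc (s := P.s6 ε) (t := P.s7 ε) (by simp only [Par.s6, Par.s7]; linarith)
    fun r hr' => (hr.hN2 r hr').le
  have a7 := int_le hc (s := P.s7 ε) (t := P.s8 ε) (by simp only [Par.s7, Par.s8]; linarith)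
    fun r hr' => (hr.hJ4 r hr').2
  have a8 := int_le hc (s := P.s8 ε) (t := P.s9 ε) (by simp only [Par.s8, Par.s9]; linarith)
    fun r hr' => (hr.hQ r hr').le
  have a9 := int_le hc (s := P.s9 ε) (t := P.s10 ε) (by simp only [Par.s9, Par.s10]; linarith)
    fun r hr' => (hr.hJ5 r hr').2
  have a10 := int_le hc (s := P.s10 ε) (t := P.s11 ε) (by simp only [Par.s10, Par.s11]; linarith)
    fun r hr' => (hr.hR r hr').le
  have a11 := int_le hc (s := P.s11 ε) (t := P.s12 ε) (by simp only [Par.s11, Par.s12]; linarith)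
    fun r hr' => (hr.hJ6 r hr').2
  have a12 := int_le hc (s := P.s12 ε) (t := P.s13 ε) (by simp only [Par.s12, Par.s13]; linarith)
    fun r hr' => (hr.hN3 r hr').le
  have a13 := int_le hc (s := P.s13 ε) (t := P.s14 ε) (by simp only [Par.s13, Par.s14]; linarith)
    fun r hr' => (hr.hJ7 r hr').2
  have b1 : P.M / ε ^ 2 * (P.s2 ε - P.s1 ε) = P.M * ε := by
    simp only [Par.s1, Par.s2]; field_simp; ring
  have b2 : (1:ℝ) * (P.s3 ε - P.s2 ε) = ε := by
    simp only [Par.s3, Par.s2]; ring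
  have b3 : P.m / ε ^ 2 * (P.s4 ε - P.s3 ε) = P.m * ε := by
    simp only [Par.s3, Par.s4]; field_simp; ring
  have b5 : P.m / ε ^ 2 * (P.s6 ε - P.s5 ε) = P.m * ε := by
    simp only [Par.s5, Par.s6]; field_simp; ring
  have b6 : P.c * ε ^ 2 * (P.s7 ε - P.s6 ε) = P.c * ε ^ 3 := by
    simp only [Par.s7, Par.s6]; ring
  have b7 : ε * (P.s8 ε - P.s7 ε) = ε ^ 4 := by
    simp only [Par.s7, Par.s8]; ring
  have b8 : ε * (P.s9 ε - P.s8 ε) = P.τ * ε := by
    simp only [Par.s9, Par.s8]; ring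
  have b9 : 1 / ε * (P.s10 ε - P.s9 ε) = ε ^ 2 := by
    simp only [Par.s9, Par.s10]; field_simp; ring
  have b10 : 1 / ε * (P.s11 ε - P.s10 ε) = 1 := by
    simp only [Par.s11, Par.s10]; field_simp; ring
  have b11 : 1 / ε * (P.s12 ε - P.s11 ε) = ε ^ 2 := by
    simp only [Par.s11, Par.s12]; field_simp; ring
  have b12 : P.a * ε * (P.s13 ε - P.s12 ε) = P.a * ε ^ 2 := by
    simp only [Par.s13, Par.s12]; ring
  have b13 : P.M / ε ^ 2 * (P.s14 ε - P.s13 ε) = P.M * ε := by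
    simp only [Par.s13, Par.s14]; field_simp; ring
  rw [b1] at a1
  rw [b2] at a2
  rw [b3] at a3
  rw [b5] at a5
  rw [b6] at a6
  rw [b7] at a7
  rw [b8] at a8
  rw [b9] at a9
  rw [b10] at a10
  rw [b11] at a11
  rw [b12] at a12
  rw [b13] at a13
  rw [split hc (P.s1 ε) (P.s2 ε) (P.s4 ε), split hc (P.s2 ε) (P.s3 ε) (P.s4 ε),
    split hc (P.s5 ε) (P.s6 ε) (P.s14 ε), split hc (P.s6 ε) (P.s7 ε) (P.s14 ε),
    split hc (P.s7 ε) (P.s8 ε) (P.s14 ε), split hc (P.s8 ε) (P.s9 ε) (P.s14 ε),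
    split hc (P.s9 ε) (P.s10 ε) (P.s14 ε), split hc (P.s10 ε) (P.s11 ε) (P.s14 ε),
    split hc (P.s11 ε) (P.s12 ε) (P.s14 ε), split hc (P.s12 ε) (P.s13 ε) (P.s14 ε)]
  have c1 : P.M * ε ≤ P.M := mul_le_of_le_one_right hM.le h1
  have c2 : P.m * ε ≤ P.m := mul_le_of_le_one_right hm.le h1
  have c3 : P.c * ε ^ 3 ≤ P.c := mul_le_of_le_one_right hcc.le e3
  have c4 : P.τ * ε ≤ P.τ := mul_le_of_le_one_right hτ.le h1
  have c5 : P.a * ε ^ 2 ≤ P.a := mul_le_of_le_one_right ha.le e2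
  have c6 := P.hMm
  linarith

theorem exists_test (h0 : 0 < ε) (h1 : ε ≤ 1) (hr : P.IsRing ε h) (v : ℝ) (hv : 0 < v) :
    ∃ u : ℝ → ℝ, ContDiff ℝ 1 u ∧ (∀ s, u (s + P.ell ε) = u s) ∧
      Zm P.p h u 0 (P.ell ε) ≤ v ^ (P.p + 1) / ε *
        (P.M + P.m * P.t0 ^ (P.p + 1) + P.t0 ^ (P.p + 1) * (7 + P.c + P.τ + P.a) * ε) ∧
      P.av ε u = v ∧ P.bv ε u = v * P.t0 ∧
      v ^ 2 / ε * (P.L0 * (P.M + P.m * P.t0 ^ 2) - (1 + ε) * (1 + P.c * ε ^ 2) * (P.t0 - 1) ^ 2)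
        ≤ P.L0 * Sm h u 0 (P.ell ε) - En h u 0 (P.ell ε) := by
  have hc := hr.smooth.continuous
  have hM := P.hM
  have hm := P.hm
  have hcc := P.hc
  have hτ := P.hτ
  have hL0 := P.hL0
  have hp0 := P.hp0
  have ht0 : 1 < P.t0 := P.ht1.trans P.ht10
  have p2 : 0 < ε ^ 2 := by positivity
  have p3 : 0 < ε ^ 3 := by positivity
  have hell : 0 < P.ell ε := by simp only [Par.ell]; positivity
  obtain ⟨g, X, hgc, hg0, hg1, hg2, hg3, hX, hXm, hX0, hX1⟩ := exists_X ε h0 h1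
  have hXc : Continuous X := continuous_iff_continuousAt.2 fun x => (hX x).continuousAt
  have hXle : ∀ x, X x ≤ 1 := fun x => by
    rcases le_total x 1 with hx | hx
    · exact (hXm hx).trans_eq (hX1 1 le_rfl)
    · exact (hX1 x hx).le
  have hXge : ∀ x, 0 ≤ X x := fun x => by
    rcases le_total 0 x with hx | hx
    · exact (hX0 0 le_rfl).symm.le.trans (hXm hx)
    · exact (hX0 x hx).symm.le
  set y : ℝ → ℝ := fun s => 1 + (P.t0 - 1) * (X ((s - P.s2 ε) / ε) - X ((s - P.s6 ε) / ε)) with hy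
  set w : ℝ → ℝ := fun s => v * (P.t0 - 1) / ε * (g ((s - P.s2 ε) / ε) - g ((s - P.s6 ε) / ε))
    with hw
  have hwc : Continuous w := by fun_prop
  have hyc : Continuous y := by fun_prop
  have hder : ∀ s, HasDerivAt (fun s => v * y s) (w s) s := by
    intro s
    have e1 : HasDerivAt (fun s => (s - P.s2 ε) / ε) (1 / ε) s :=
      ((hasDerivAt_id s).sub_const _).div_const _
    have e2 : HasDerivAt (fun s => (s - P.s6 ε) / ε) (1 / ε) s :=
      ((hasDerivAt_id s).sub_const _).div_const _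
    have e3 := (hX ((s - P.s2 ε) / ε)).comp s e1
    have e4 := (hX ((s - P.s6 ε) / ε)).comp s e2
    have e5 := (((e3.sub e4).const_mul (P.t0 - 1)).const_add 1).const_mul v
    refine e5.congr_deriv ?_
    simp only [hw]
    ring
  -- values of `y`
  have hs26 : P.s2 ε ≤ P.s6 ε := by simp only [Par.s2, Par.s6]; linarith
  have hyge : ∀ s, 1 ≤ y s := by
    intro s
    have : X ((s - P.s6 ε) / ε) ≤ X ((s - P.s2 ε) / ε) := hXm (by gcongr)
    simp only [hy]
    nlinarith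
  have hyle : ∀ s, y s ≤ P.t0 := by
    intro s
    have h1 := hXle ((s - P.s2 ε) / ε)
    have h2 := hXge ((s - P.s6 ε) / ε)
    simp only [hy]
    nlinarith
  have hy1 : ∀ s ≤ P.s2 ε, y s = 1 := by
    intro s hs
    simp only [hy]
    rw [hX0 _ (div_nonpos_of_nonpos_of_nonneg (by linarith) h0.le),
      hX0 _ (div_nonpos_of_nonpos_of_nonneg (by linarith) h0.le)]
    ring
  have hyt : ∀ s, P.s3 ε ≤ s → s ≤ P.s6 ε → y s = P.t0 := by
    intro s hs hs'
    simp only [hy]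
    rw [hX1 _ (by rw [le_div_iff₀ h0]; simp only [Par.s2, Par.s3] at *; linarith),
      hX0 _ (div_nonpos_of_nonpos_of_nonneg (by linarith) h0.le)]
    ring
  have hy7 : ∀ s, P.s7 ε ≤ s → y s = 1 := by
    intro s hs
    simp only [hy]
    rw [hX1 _ (by rw [le_div_iff₀ h0]; simp only [Par.s2, Par.s7] at *; linarith),
      hX1 _ (by rw [le_div_iff₀ h0]; simp only [Par.s6, Par.s7] at *; linarith)]
    ring
  have hs2 : 0 ≤ P.s2 ε := by simp only [Par.s2]; positivity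
  have hs7 : P.s7 ε ≤ P.ell ε := by simp only [Par.s7, Par.ell]; linarith
  have hw0 : w 0 = w (P.ell ε) := by
    have e1 : (0 - P.s2 ε) / ε ≤ 0 := div_nonpos_of_nonpos_of_nonneg (by linarith) h0.le
    have e2 : (0 - P.s6 ε) / ε ≤ 0 := div_nonpos_of_nonpos_of_nonneg (by linarith) h0.le
    have e3 : 1 ≤ (P.ell ε - P.s2 ε) / ε := by
      rw [le_div_iff₀ h0]; simp only [Par.s2, Par.ell] at *; linarith
    have e4 : 1 ≤ (P.ell ε - P.s6 ε) / ε := by
      rw [le_div_iff₀ h0]; simp only [Par.s6, Par.ell] at *; linarith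
    simp only [hw, hg2 _ e1, hg2 _ e2, hg3 _ e3, hg3 _ e4]
  obtain ⟨u, hu1, hup, hu, hud⟩ := exists_perC1 (P.ell ε) hell (fun s => v * y s) w hwc hder hw0
    (by simp only [hy1 0 hs2, hy7 _ hs7])
  have huc : Continuous u := hu1.continuous
  have hq : 0 ≤ P.p + 1 := by linarith
  -- orderings
  have o1 : 0 ≤ P.s1 ε := by simp only [Par.s1]; positivity
  have o12 : P.s1 ε ≤ P.s2 ε := by simp only [Par.s1, Par.s2]; linarith
  have o14 : P.s1 ε ≤ P.s4 ε := by simp only [Par.s1, Par.s4]; linarith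
  have o34 : P.s3 ε ≤ P.s4 ε := by simp only [Par.s3, Par.s4]; linarith
  have o45 : P.s4 ε ≤ P.s5 ε := by simp only [Par.s4, Par.s5]; linarith
  have o56 : P.s5 ε ≤ P.s6 ε := by simp only [Par.s5, Par.s6]; linarith
  have o514 : P.s5 ε ≤ P.s14 ε := by simp only [Par.s5, Par.s14]; linarith
  have o714 : P.s7 ε ≤ P.s14 ε := by simp only [Par.s7, Par.s14]; linarith
  have o14l : P.s14 ε ≤ P.ell ε := by simp only [Par.ell, Par.s14]; linarith
  have o04 : 0 ≤ P.s4 ε := o1.trans o14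
  have o05 : 0 ≤ P.s5 ε := o04.trans o45
  have o014 : 0 ≤ P.s14 ε := o05.trans o514
  have o4l : P.s4 ε ≤ P.ell ε := (o45.trans o514).trans o14l
  have o5l : P.s5 ε ≤ P.ell ε := o514.trans o14l
  have o1l : P.s1 ε ≤ P.ell ε := o14.trans o4l
  -- values of `u`
  have hpos : ∀ s ∈ Icc 0 (P.ell ε), 0 < u s := fun s hs => by
    rw [hu s hs]; exact mul_pos hv (zero_lt_one.trans_le (hyge s))
  have hle : ∀ s ∈ Icc 0 (P.ell ε), u s ≤ v * P.t0 := fun s hs => by
    rw [hu s hs]; exact mul_le_mul_of_nonneg_left (hyle s) hv.le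
  have huH : ∀ s ∈ Icc 0 (P.s1 ε), u s = v := fun s hs => by
    rw [hu s ⟨hs.1, hs.2.trans o1l⟩, hy1 s (hs.2.trans o12), mul_one]
  have huL : ∀ s ∈ Icc (P.s4 ε) (P.s5 ε), u s = v * P.t0 := fun s hs => by
    rw [hu s ⟨o04.trans hs.1, hs.2.trans o5l⟩, hyt s (o34.trans hs.1) (hs.2.trans o56)]
  have huH' : ∀ s ∈ Icc (P.s14 ε) (P.ell ε), u s = v := fun s hs => by
    rw [hu s ⟨o014.trans hs.1, hs.2⟩, hy7 s (o714.trans hs.1), mul_one]
  have hH1 : P.s1 ε - 0 = ε / 2 := by simp only [Par.s1]; ring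
  have hL1 : P.s5 ε - P.s4 ε = ε := by simp only [Par.s5, Par.s4]; ring
  have hH2 : P.ell ε - P.s14 ε = ε / 2 := by simp only [Par.ell, Par.s14]; ring
  have hrest := rest_le P h0 h1 hr
  refine ⟨u, hu1, hup, ?_, ?_, ?_, ?_⟩
  · -- `Z`
    have hzc : Continuous fun s => h s * |u s| ^ (P.p + 1) :=
      hc.mul (huc.abs.rpow_const fun _ => Or.inr hq)
    have hb : ∀ s ∈ Icc 0 (P.ell ε), h s * |u s| ^ (P.p + 1) ≤ (v * P.t0) ^ (P.p + 1) * h s := by
      intro s hs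
      rw [mul_comm]
      refine mul_le_mul_of_nonneg_right ?_ (hr.pos s).le
      rw [abs_of_pos (hpos s hs)]
      exact Real.rpow_le_rpow (hpos s hs).le (hle s hs) hq
    have z1 : ∫ s in (0:ℝ)..P.s1 ε, h s * |u s| ^ (P.p + 1) =
        P.M / ε ^ 2 * v ^ (P.p + 1) * (P.s1 ε - 0) := int_eq o1 fun s hs => by
      rw [huH s hs, hr.hH s hs, abs_of_pos hv]
    have z2 : ∫ s in P.s1 ε..P.s4 ε, h s * |u s| ^ (P.p + 1) ≤
        (v * P.t0) ^ (P.p + 1) * ∫ s in P.s1 ε..P.s4 ε, h s := by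
      rw [← intervalIntegral.integral_const_mul]
      exact int_mono hzc (continuous_const.mul hc) o14 fun s hs =>
        hb s ⟨o1.trans hs.1, hs.2.trans o4l⟩
    have z3 : ∫ s in P.s4 ε..P.s5 ε, h s * |u s| ^ (P.p + 1) =
        P.m / ε ^ 2 * (v * P.t0) ^ (P.p + 1) * (P.s5 ε - P.s4 ε) := int_eq o45 fun s hs => by
      rw [huL s hs, hr.hL s hs, abs_of_pos (by positivity)]
    have z4 : ∫ s in P.s5 ε..P.s14 ε, h s * |u s| ^ (P.p + 1) ≤
        (v * P.t0) ^ (P.p + 1) * ∫ s in P.s5 ε..P.s14 ε, h s := by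
      rw [← intervalIntegral.integral_const_mul]
      exact int_mono hzc (continuous_const.mul hc) o514 fun s hs =>
        hb s ⟨o05.trans hs.1, hs.2.trans o14l⟩
    have z5 : ∫ s in P.s14 ε..P.ell ε, h s * |u s| ^ (P.p + 1) =
        P.M / ε ^ 2 * v ^ (P.p + 1) * (P.ell ε - P.s14 ε) := int_eq o14l fun s hs => by
      rw [huH' s hs, hr.hH' s hs, abs_of_pos hv]
    have z6 : Zm P.p h u 0 (P.ell ε) = (∫ s in (0:ℝ)..P.s1 ε, h s * |u s| ^ (P.p + 1)) +
        ((∫ s in P.s1 ε..P.s4 ε, h s * |u s| ^ (P.p + 1)) +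
        ((∫ s in P.s4 ε..P.s5 ε, h s * |u s| ^ (P.p + 1)) +
        ((∫ s in P.s5 ε..P.s14 ε, h s * |u s| ^ (P.p + 1)) +
        ∫ s in P.s14 ε..P.ell ε, h s * |u s| ^ (P.p + 1)))) := by
      simp only [Zm]
      rw [split hzc 0 (P.s1 ε) (P.ell ε), split hzc (P.s1 ε) (P.s4 ε) (P.ell ε),
        split hzc (P.s4 ε) (P.s5 ε) (P.ell ε), split hzc (P.s5 ε) (P.s14 ε) (P.ell ε)]
    have z7 : (v * P.t0) ^ (P.p + 1) = v ^ (P.p + 1) * P.t0 ^ (P.p + 1) :=
      Real.mul_rpow hv.le (by linarith)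
    rw [z6, z1, z3, z5, hH1, hL1, hH2]
    have z8 : 0 ≤ (v * P.t0) ^ (P.p + 1) := by positivity
    have z9 : (v * P.t0) ^ (P.p + 1) *
        ((∫ s in (P.s1 ε)..P.s4 ε, h s) + ∫ s in (P.s5 ε)..P.s14 ε, h s) ≤
        (v * P.t0) ^ (P.p + 1) * (7 + P.c + P.τ + P.a) := mul_le_mul_of_nonneg_left hrest z8
    have z10 : v ^ (P.p + 1) / ε * (P.M + P.m * P.t0 ^ (P.p + 1) +
        P.t0 ^ (P.p + 1) * (7 + P.c + P.τ + P.a) * ε) =
        P.M / ε ^ 2 * v ^ (P.p + 1) * (ε / 2) + P.M / ε ^ 2 * v ^ (P.p + 1) * (ε / 2) +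
        P.m / ε ^ 2 * (v * P.t0) ^ (P.p + 1) * ε +
        (v * P.t0) ^ (P.p + 1) * (7 + P.c + P.τ + P.a) := by
      rw [z7]
      field_simp
      ring
    rw [z10]
    linarith
  · -- `av`
    have e1 : ∫ s in (0:ℝ)..P.s1 ε, u s = v * (P.s1 ε - 0) := int_eq o1 huH
    have e2 : ∫ s in P.s14 ε..P.ell ε, u s = v * (P.ell ε - P.s14 ε) := int_eq o14l huH'
    simp only [Par.av]
    rw [e1, e2, hH1, hH2]
    field_simp
    ring
  · -- `bv`
    have e1 : ∫ s in P.s4 ε..P.s5 ε, u s = v * P.t0 * (P.s5 ε - P.s4 ε) := int_eq o45 huL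
    simp only [Par.bv]
    rw [e1, hL1]
    field_simp
  · -- `S` and `E`
    have hsc : Continuous fun s => h s * (u s) ^ 2 := hc.mul (huc.pow 2)
    have hsn : ∀ s, 0 ≤ h s * (u s) ^ 2 := fun s => mul_nonneg (hr.pos s).le (sq_nonneg _)
    have z1 : ∫ s in (0:ℝ)..P.s1 ε, h s * (u s) ^ 2 =
        P.M / ε ^ 2 * v ^ 2 * (P.s1 ε - 0) := int_eq o1 fun s hs => by
      rw [huH s hs, hr.hH s hs]
    have z2 : 0 ≤ ∫ s in P.s1 ε..P.s4 ε, h s * (u s) ^ 2 :=
      intervalIntegral.integral_nonneg o14 fun s _ => hsn s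
    have z3 : ∫ s in P.s4 ε..P.s5 ε, h s * (u s) ^ 2 =
        P.m / ε ^ 2 * (v * P.t0) ^ 2 * (P.s5 ε - P.s4 ε) := int_eq o45 fun s hs => by
      rw [huL s hs, hr.hL s hs]
    have z4 : 0 ≤ ∫ s in P.s5 ε..P.s14 ε, h s * (u s) ^ 2 :=
      intervalIntegral.integral_nonneg o514 fun s _ => hsn s
    have z5 : ∫ s in P.s14 ε..P.ell ε, h s * (u s) ^ 2 =
        P.M / ε ^ 2 * v ^ 2 * (P.ell ε - P.s14 ε) := int_eq o14l fun s hs => by
      rw [huH' s hs, hr.hH' s hs]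
    have z6 : Sm h u 0 (P.ell ε) = (∫ s in (0:ℝ)..P.s1 ε, h s * (u s) ^ 2) +
        ((∫ s in P.s1 ε..P.s4 ε, h s * (u s) ^ 2) +
        ((∫ s in P.s4 ε..P.s5 ε, h s * (u s) ^ 2) +
        ((∫ s in P.s5 ε..P.s14 ε, h s * (u s) ^ 2) +
        ∫ s in P.s14 ε..P.ell ε, h s * (u s) ^ 2))) := by
      simp only [Sm]
      rw [split hsc 0 (P.s1 ε) (P.ell ε), split hsc (P.s1 ε) (P.s4 ε) (P.ell ε),
        split hsc (P.s4 ε) (P.s5 ε) (P.ell ε), split hsc (P.s5 ε) (P.s14 ε) (P.ell ε)]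
    rw [z1, z3, z5, hH1, hL1, hH2] at z6
    have z7 : v ^ 2 / ε * (P.M + P.m * P.t0 ^ 2) ≤ Sm h u 0 (P.ell ε) := by
      have e1 : v ^ 2 / ε * (P.M + P.m * P.t0 ^ 2) = P.M / ε ^ 2 * v ^ 2 * (ε / 2) +
          P.m / ε ^ 2 * (v * P.t0) ^ 2 * ε + P.M / ε ^ 2 * v ^ 2 * (ε / 2) := by
        field_simp
        ring
      rw [z6, e1]
      linarith
    -- energy
    have hG1c : Continuous fun s => g ((s - P.s2 ε) / ε) := by fun_prop
    have hG2c : Continuous fun s => g ((s - P.s6 ε) / ε) := by fun_prop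
    have hI1 : ∫ s in (0:ℝ)..P.ell ε, g ((s - P.s2 ε) / ε) = ε := by
      have e0 : ∀ s ∈ uIcc 0 (P.ell ε), HasDerivAt (fun s => ε * X ((s - P.s2 ε) / ε))
          (g ((s - P.s2 ε) / ε)) s := by
        intro s _
        have e1 : HasDerivAt (fun s => (s - P.s2 ε) / ε) (1 / ε) s :=
          ((hasDerivAt_id s).sub_const _).div_const _
        refine (((hX ((s - P.s2 ε) / ε)).comp s e1).const_mul ε).congr_deriv ?_
        field_simp
      have a1 : X ((0 - P.s2 ε) / ε) = 0 :=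
        hX0 _ (div_nonpos_of_nonpos_of_nonneg (by linarith) h0.le)
      have a2 : X ((P.ell ε - P.s2 ε) / ε) = 1 :=
        hX1 _ (by rw [le_div_iff₀ h0]; simp only [Par.s2, Par.ell]; linarith)
      rw [intervalIntegral.integral_eq_sub_of_hasDerivAt e0 (hG1c.intervalIntegrable _ _), a1, a2]
      ring
    have hI2 : ∫ s in (0:ℝ)..P.ell ε, g ((s - P.s6 ε) / ε) = ε := by
      have e0 : ∀ s ∈ uIcc 0 (P.ell ε), HasDerivAt (fun s => ε * X ((s - P.s6 ε) / ε))
          (g ((s - P.s6 ε) / ε)) s := by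
        intro s _
        have e1 : HasDerivAt (fun s => (s - P.s6 ε) / ε) (1 / ε) s :=
          ((hasDerivAt_id s).sub_const _).div_const _
        refine (((hX ((s - P.s6 ε) / ε)).comp s e1).const_mul ε).congr_deriv ?_
        field_simp
      have a1 : X ((0 - P.s6 ε) / ε) = 0 :=
        hX0 _ (div_nonpos_of_nonpos_of_nonneg (by linarith) h0.le)
      have a2 : X ((P.ell ε - P.s6 ε) / ε) = 1 :=
        hX1 _ (by rw [le_div_iff₀ h0]; simp only [Par.s6, Par.ell]; linarith)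
      rw [intervalIntegral.integral_eq_sub_of_hasDerivAt e0 (hG2c.intervalIntegrable _ _), a1, a2]
      ring
    set A : ℝ := v * (P.t0 - 1) / ε with hA
    have hsq : ∀ x, g x ^ 2 ≤ (1 + ε) * g x := fun x => by
      rw [sq]; exact mul_le_mul_of_nonneg_right (hg1 x) (hg0 x)
    have hb : ∀ s ∈ Icc 0 (P.ell ε), h s * (w s) ^ 2 ≤
        A ^ 2 * (1 + ε) * (g ((s - P.s2 ε) / ε) + P.c * ε ^ 2 * g ((s - P.s6 ε) / ε)) := by
      intro s hs
      have hAA : 0 ≤ A ^ 2 := sq_nonneg _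
      have hn1 := hg0 ((s - P.s2 ε) / ε)
      have hn2 := hg0 ((s - P.s6 ε) / ε)
      by_cases c1 : s ∈ Icc (P.s2 ε) (P.s3 ε)
      · have e1 : g ((s - P.s6 ε) / ε) = 0 := hg2 _ (div_nonpos_of_nonpos_of_nonneg (by
          have := c1.2; simp only [Par.s3, Par.s6] at *; linarith) h0.le)
        have e2 : w s = A * g ((s - P.s2 ε) / ε) := by simp only [hw]; rw [e1, sub_zero]
        rw [e2, hr.hN1 s c1, e1, one_mul, mul_zero, add_zero, mul_pow, mul_assoc]
        exact mul_le_mul_of_nonneg_left (hsq _) hAA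
      by_cases c2 : s ∈ Icc (P.s6 ε) (P.s7 ε)
      · have e1 : g ((s - P.s2 ε) / ε) = 0 := hg3 _ (by
          rw [le_div_iff₀ h0]; have := c2.1; simp only [Par.s2, Par.s6] at *; linarith)
        have e2 : w s = - (A * g ((s - P.s6 ε) / ε)) := by
          simp only [hw]; rw [e1, zero_sub, mul_neg]
        rw [e2, hr.hN2 s c2, e1, zero_add, neg_sq, mul_pow]
        have e3 := mul_le_mul_of_nonneg_left (hsq ((s - P.s6 ε) / ε))
          (show 0 ≤ P.c * ε ^ 2 * A ^ 2 by positivity)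
        linarith
      · have e1 : g ((s - P.s2 ε) / ε) = 0 := by
          rcases lt_or_ge s (P.s2 ε) with c3 | c3
          · exact hg2 _ (div_nonpos_of_nonpos_of_nonneg (by linarith) h0.le)
          · have c4 : P.s3 ε < s := by
              by_contra c4
              exact c1 ⟨c3, not_lt.1 c4⟩
            exact hg3 _ (by rw [le_div_iff₀ h0]; simp only [Par.s2, Par.s3] at *; linarith)
        have e2 : g ((s - P.s6 ε) / ε) = 0 := by
          rcases lt_or_ge s (P.s6 ε) with c3 | c3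
          · exact hg2 _ (div_nonpos_of_nonpos_of_nonneg (by linarith) h0.le)
          · have c4 : P.s7 ε < s := by
              by_contra c4
              exact c2 ⟨c3, not_lt.1 c4⟩
            exact hg3 _ (by rw [le_div_iff₀ h0]; simp only [Par.s6, Par.s7] at *; linarith)
        have e3 : w s = 0 := by simp only [hw]; rw [e1, e2, sub_zero, mul_zero]
        rw [e1, e2, e3]
        simp
    have hE : En h u 0 (P.ell ε) ≤ v ^ 2 / ε * ((1 + ε) * (1 + P.c * ε ^ 2) * (P.t0 - 1) ^ 2) := by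
      have e1 : En h u 0 (P.ell ε) = ∫ s in (0:ℝ)..P.ell ε, h s * (w s) ^ 2 := by
        simp only [En]
        refine intervalIntegral.integral_congr ?_
        intro s hs
        rw [uIcc_of_le hell.le] at hs
        change h s * (deriv u s) ^ 2 = _
        rw [hud s hs]
      have e2 := int_mono (hc.mul (hwc.pow 2)) (show Continuous fun s => A ^ 2 * (1 + ε) *
        (g ((s - P.s2 ε) / ε) + P.c * ε ^ 2 * g ((s - P.s6 ε) / ε)) by fun_prop) hell.le hb
      rw [e1]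
      refine e2.trans (le_of_eq ?_)
      have hG3c : Continuous fun s => P.c * ε ^ 2 * g ((s - P.s6 ε) / ε) := by fun_prop
      rw [intervalIntegral.integral_const_mul, intervalIntegral.integral_add
        (hG1c.intervalIntegrable _ _) (hG3c.intervalIntegrable _ _),
        intervalIntegral.integral_const_mul, hI1, hI2, hA]
      field_simp
    have e9 := mul_le_mul_of_nonneg_left z7 hL0.le
    have e10 : v ^ 2 / ε * (P.L0 * (P.M + P.m * P.t0 ^ 2) -
        (1 + ε) * (1 + P.c * ε ^ 2) * (P.t0 - 1) ^ 2) =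
        P.L0 * (v ^ 2 / ε * (P.M + P.m * P.t0 ^ 2)) -
        v ^ 2 / ε * ((1 + ε) * (1 + P.c * ε ^ 2) * (P.t0 - 1) ^ 2) := by ring
    rw [e10]
    linarith

end

end Pool.Agent.Lib.MP_e46711_an.H2
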